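import Pool.Agent.Y522.FA.Stm

/-!
# Project FA: integration in charts, almost everywhere statements, finiteness of the area
-/

set_option autoImplicit false

open Set Filter Topology Metric Function MeasureTheory
open scoped Manifold ContDiff Real NNReal

noncomputable section

namespace Pool.Agent.Y365.FA

open Pool.Agent.Y522.FA

set_option linter.unusedSectionVars false

variable {M : Type} [MetricSpace M] [MeasurableSpace M] [BorelSpace M] {μ : Measure M}
  {b : Circ → M}

theorem measT (S : Surf M μ b) (i : Fin S.N) : MeasurableSet (S.T i) := by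
  obtain ⟨O, hO, h⟩ := S.openT i
  have h2 : S.T i = O ∩ {z | 0 ≤ z 0} := h
  rw [h2]
  refine hO.measurableSet.inter ?_
  exact (isClosed_le continuous_const (by fun_prop)).measurableSet

theorem contDet (S : Surf M μ b) (i : Fin S.N) :
    ContinuousOn (fun z => (S.A i z).det) (S.T i) :=
  ContinuousLinearMap.continuous_det.comp_continuousOn (S.contA i)

theorem pre_eq (S : Surf M μ b) (i : Fin S.N) (B : Set M) :
    (S.ψ i) ⁻¹' B ∩ S.T i = S.φ i '' (B ∩ S.U i) := by
  ext z
  constructor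
  · rintro ⟨h1, x, hx, rfl⟩
    refine ⟨x, ⟨?_, hx⟩, rfl⟩
    have := S.left i x hx
    rw [mem_preimage, this] at h1
    exact h1
  · rintro ⟨x, ⟨h1, hx⟩, rfl⟩
    refine ⟨?_, x, hx, rfl⟩
    rw [mem_preimage, S.left i x hx]
    exact h1

theorem aemψ (S : Surf M μ b) (i : Fin S.N) :
    AEMeasurable (S.ψ i) (volume.restrict (S.T i)) :=
  (S.contψ i).aemeasurable (measT S i)

theorem aemDet (S : Surf M μ b) (i : Fin S.N) :
    AEMeasurable (fun z => ENNReal.ofReal (S.A i z).det) (volume.restrict (S.T i)) :=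
  ((contDet S i).aemeasurable (measT S i)).ennreal_ofReal

/-- the area measure in the chart -/
def nu (S : Surf M μ b) (i : Fin S.N) : Measure E2 :=
  (volume.restrict (S.T i)).withDensity (fun z => ENNReal.ofReal (S.A i z).det)

theorem aemψ' (S : Surf M μ b) (i : Fin S.N) : AEMeasurable (S.ψ i) (nu S i) :=
  (aemψ S i).mono_ac (withDensity_absolutelyContinuous _ _)

theorem map_nu (S : Surf M μ b) (i : Fin S.N) :
    Measure.map (S.ψ i) (nu S i) = μ.restrict (S.U i) := by
  ext B hB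
  rw [Measure.map_apply_of_aemeasurable (aemψ' S i) hB, Measure.restrict_apply hB,
    S.area i (B ∩ S.U i) inter_subset_right (hB.inter (S.openU i).measurableSet),
    nu, withDensity_apply', Measure.restrict_restrict' (measT S i), pre_eq]

theorem stInt : StInt := by
  intro M _ _ _ μ b S i k hk
  have hk2 : AEStronglyMeasurable k (Measure.map (S.ψ i) (nu S i)) := by
    rw [map_nu]
    exact hk.restrict
  rw [← map_nu S i, integral_map (aemψ' S i) hk2, nu,
    integral_withDensity_eq_integral_toReal_smul₀ (aemDet S i)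
      (Eventually.of_forall fun z => ENNReal.ofReal_lt_top)]
  refine setIntegral_congr_fun (measT S i) fun z hz => ?_
  have := S.detA i z hz
  simp only [smul_eq_mul]
  rw [ENNReal.toReal_ofReal this.le, mul_comm]

theorem stAe : StAe := by
  intro M _ _ _ μ b S i P hP
  have h0 : volume {z | ¬ (z ∈ S.T i → P z)} = 0 := hP
  set N := toMeasurable volume {z | ¬ (z ∈ S.T i → P z)} with hN
  have hNm : MeasurableSet N := measurableSet_toMeasurable _ _
  have hN0 : volume N = 0 := by rw [hN, measure_toMeasurable, h0]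
  have hsub : {z | ¬ (z ∈ S.T i → P z)} ⊆ N := subset_toMeasurable _ _
  have hB : MeasurableSet (S.U i ∩ S.φ i ⁻¹' N) := by
    have h1 : S.U i ∩ S.φ i ⁻¹' N = Subtype.val '' ((S.U i).domRestrict (S.φ i) ⁻¹' N) := by
      ext x
      constructor
      · rintro ⟨h, h'⟩
        exact ⟨⟨x, h⟩, h', rfl⟩
      · rintro ⟨⟨y, hy⟩, h', rfl⟩
        exact ⟨hy, h'⟩
    rw [h1]
    refine (S.openU i).measurableSet.subtype_image ?_
    exact (continuousOn_iff_continuous_domRestrict.1 (S.contφ i)).measurable hNm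
  have hμB : μ (S.U i ∩ S.φ i ⁻¹' N) = 0 := by
    rw [S.area i _ inter_subset_left hB]
    have h2 : volume (S.φ i '' (S.U i ∩ S.φ i ⁻¹' N)) = 0 := by
      refine measure_mono_null ?_ hN0
      rintro _ ⟨x, ⟨_, hx⟩, rfl⟩
      exact hx
    rw [Measure.restrict_eq_zero.2 h2, lintegral_zero_measure]
  refine measure_mono_null ?_ hμB
  intro x hx
  simp only [mem_compl_iff, mem_ofPred_eq, Classical.not_imp] at hx
  refine ⟨hx.1, hsub ?_⟩
  simp only [mem_ofPred_eq, Classical.not_imp]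
  exact ⟨⟨x, hx.1, rfl⟩, hx.2⟩

theorem stFin : StFin := by
  intro M _ _ _ _ μ b S
  refine ⟨isCompact_univ.measure_lt_top_of_nhdsWithin fun x _ => ?_⟩
  obtain ⟨i, hi⟩ := S.cover x
  have hc := contDet S i (S.φ i x) ⟨x, hi, rfl⟩
  have h1 : ∀ᶠ z in 𝓝[S.T i] (S.φ i x), (S.A i z).det < (S.A i (S.φ i x)).det + 1 :=
    hc.eventually (gt_mem_nhds (by linarith))
  have h1' : ∀ᶠ z in 𝓝 (S.φ i x), z ∈ S.T i → (S.A i z).det < (S.A i (S.φ i x)).det + 1 :=
    eventually_nhdsWithin_iff.1 h1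
  obtain ⟨r, hr, h2⟩ := Metric.eventually_nhds_iff_ball.1 h1'
  have hopen : IsOpen (S.U i ∩ S.φ i ⁻¹' ball (S.φ i x) r) :=
    (S.contφ i).isOpen_inter_preimage (S.openU i) isOpen_ball
  have hmem : S.U i ∩ S.φ i ⁻¹' ball (S.φ i x) r ∈ 𝓝[univ] x := by
    rw [nhdsWithin_univ]
    exact hopen.mem_nhds ⟨hi, mem_ball_self hr⟩
  refine ⟨_, hmem, ?_⟩
  rw [S.area i _ inter_subset_left hopen.measurableSet]
  calc ∫⁻ z in S.φ i '' (S.U i ∩ S.φ i ⁻¹' ball (S.φ i x) r), ENNReal.ofReal (S.A i z).det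
      ≤ ∫⁻ z in S.φ i '' (S.U i ∩ S.φ i ⁻¹' ball (S.φ i x) r),
        ENNReal.ofReal ((S.A i (S.φ i x)).det + 1) := by
        refine setLIntegral_mono measurable_const ?_
        rintro _ ⟨y, ⟨hy, hy2⟩, rfl⟩
        exact ENNReal.ofReal_le_ofReal (h2 _ hy2 ⟨y, hy, rfl⟩).le
    _ = ENNReal.ofReal ((S.A i (S.φ i x)).det + 1) *
        volume (S.φ i '' (S.U i ∩ S.φ i ⁻¹' ball (S.φ i x) r)) := by
        rw [setLIntegral_const]
    _ ≤ ENNReal.ofReal ((S.A i (S.φ i x)).det + 1) * volume (ball (S.φ i x) r) := by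
        gcongr
        rintro _ ⟨y, ⟨_, hy2⟩, rfl⟩
        exact hy2
    _ < ⊤ := ENNReal.mul_lt_top ENNReal.ofReal_lt_top measure_ball_lt_top

end Pool.Agent.Y365.FA
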